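import Pool.Agent.L5helper11.CL.Prog

/-!
# Critical points of a substitution in a multiple of the permanent
-/

set_option autoImplicit false

open Finset MvPolynomial Filter

namespace Pool.Agent.L5helper59.ZT

open L5helper59.DC L5helper11.CL Pool.Agent.L5helper60.LA Pool.Agent.L5helper88.CP

theorem CT.renameSome {τ : Type} [Fintype τ] [DecidableEq τ] {F : ℕ → MvPolynomial τ ℂ}
    {f : MvPolynomial τ ℂ} (D : ℕ) (hdeg : ∀ k, (F k).totalDegree ≤ D) (hF : CT F f) :
    CT (fun k => rename some (F k)) (rename some f : MvPolynomial (Option τ) ℂ) := by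
  have e : (rename some : MvPolynomial τ ℂ →ₐ[ℂ] MvPolynomial (Option τ) ℂ) =
      aeval (X ∘ some) := by
    ext i
    simp
  rw [e]
  exact CT.aeval (fun _ => X ∘ some) (X ∘ some) (fun _ => CT.const _) D f F hdeg hF

section

variable {τ σ : Type} [Fintype τ] [DecidableEq τ] [Fintype σ] [DecidableEq σ]

/-- the parameters of the substitution, with one more variable -/
def parA (a : τ → ℂ) : Option τ → ℂ := fun o => o.elim 0 a

/-- the coefficients of the substitution, with one more variable -/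
def parB (b : τ → σ → ℂ) : Option τ → Option σ → ℂ :=
  fun o => o.elim (fun o' => o'.elim 1 fun _ => 0) fun v o' => o'.elim 0 (b v)

theorem aff_none (a : τ → ℂ) (b : τ → σ → ℂ) : aff (parA a none) (parB b none) = X none := by
  unfold aff parA parB
  rw [Fintype.sum_option]
  simp

theorem aff_some (a : τ → ℂ) (b : τ → σ → ℂ) (v : τ) :
    aff (parA a (some v)) (parB b (some v)) = rename some (aff (a v) (b v)) := by
  unfold aff parA parB
  rw [Fintype.sum_option]
  simp

theorem aeval_par (a : τ → ℂ) (b : τ → σ → ℂ) (P : MvPolynomial τ ℂ) :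
    aeval (fun j => aff (parA a j) (parB b j)) (X none * rename some P) =
      X none * rename some (aeval (fun j => aff (a j) (b j)) P) := by
  rw [map_mul, aeval_X, aff_none, aeval_rename, comp_aeval_apply]
  congr 2
  exact congrArg _ (funext fun v => aff_some a b v)

end

/-- L8, from L6, L7 and L8a -/
theorem exists_subst_crit_of
    (L6 : ∀ (σ : Type) [Fintype σ] [DecidableEq σ] (h : MvPolynomial σ ℂ) (c : σ → ℂ)
      (S : Finset (σ → ℂ)) (_ : Crit h c S) (g : MvPolynomial (Option σ) ℂ) (_ : g ≠ 0),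
      ∃ (c' : Option (Option σ) → ℂ) (S' : Finset (Option (Option σ) → ℂ)), S'.card = S.card ∧
        Crit (X none * rename some (g * gr h)) c' S')
    (L7 : ∀ (τ : Type) [Fintype τ] [DecidableEq τ] (g : ℕ → MvPolynomial τ ℂ)
      (D : ℕ) (_ : ∀ k, (g k).totalDegree ≤ D) (_ : ∀ k, g k ≠ 0),
      ∃ (φ : ℕ → ℕ) (r : ℕ → ℂ) (g₀ : MvPolynomial τ ℂ), StrictMono φ ∧ (∀ k, r k ≠ 0) ∧ g₀ ≠ 0 ∧
        CT (fun k => C (r k) * g (φ k)) g₀)
    (L8a : ∀ (τ σ : Type) [Fintype τ] [DecidableEq τ] [Fintype σ] [DecidableEq σ]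
      (P g : MvPolynomial τ ℂ) (_ : g ≠ 0) (a : τ → ℂ) (b : τ → σ → ℂ) (ε : ℝ) (_ : 0 < ε),
      ∃ a' : τ → ℂ, aeval (fun j => aff (a' j) (b j)) g ≠ 0 ∧
        ∀ d, ‖coeff d (aeval (fun j => aff (a' j) (b j)) P) -
          coeff d (aeval (fun j => aff (a j) (b j)) P)‖ ≤ ε)
    {σ : Type} [Fintype σ] [DecidableEq σ] (h : MvPolynomial σ ℂ)
    (c : σ → ℂ) (S : Finset (σ → ℂ)) (hS : Crit h c S) (Gk : ℕ → MvPolynomial (Option σ) ℂ)
    (Δ : ℕ) (hdeg : ∀ k, (Gk k).totalDegree ≤ Δ) (hlim : CT Gk (gr h)) (m₀ m : ℕ) (hm : m₀ ≤ m)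
    (hperm : ∀ k, ∃ (M₀ : Matrix (Fin m₀) (Fin m₀) (MvPolynomial (Option σ) ℂ)) (K : ℂ), K ≠ 0 ∧
      (∀ x y, (M₀ x y).totalDegree ≤ 1) ∧ M₀.permanent = C K * Gk k)
    (g : MvPolynomial (Fin m × Fin m) ℂ) (hg : g ≠ 0) :
    ∃ (a : Option (Fin m × Fin m) → ℂ) (b : Option (Fin m × Fin m) → Option (Option σ) → ℂ)
      (c' : Option (Option σ) → ℂ) (S' : Finset (Option (Option σ) → ℂ)), S'.card = S.card ∧
      Crit (aeval (fun j => aff (a j) (b j)) (X none * rename some (g * permPoly m))) c' S' := by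
  classical
  -- the substitutions
  have h1 : ∀ k : ℕ, ∃ (a : Fin m × Fin m → ℂ) (b : Fin m × Fin m → Option σ → ℂ) (K : ℂ),
      K ≠ 0 ∧ aeval (fun j => aff (a j) (b j)) g ≠ 0 ∧
      ∀ d, ‖coeff d (aeval (fun j => aff (a j) (b j)) (permPoly m)) - coeff d (C K * Gk k)‖ ≤
        ‖K‖ * (1 / ((k : ℝ) + 1)) := by
    intro k
    obtain ⟨M₀, K, hK, hM₀, hp⟩ := hperm k
    obtain ⟨a, b, hab⟩ := exists_subst' hm M₀ hM₀
    have hε : 0 < ‖K‖ * (1 / ((k : ℝ) + 1)) := by
      have := norm_pos_iff.2 hK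
      positivity
    obtain ⟨a', h2, h3⟩ := L8a _ _ (permPoly m) g hg a b _ hε
    refine ⟨a', b, K, hK, h2, fun d => ?_⟩
    rw [← hp, ← hab]
    exact h3 d
  choose a b K hK hg' hclose using h1
  have hθ : ∀ k j, (aff (a k j) (b k j)).totalDegree ≤ 1 := fun k j => totalDegree_aff _ _
  set P' : ℕ → MvPolynomial (Option σ) ℂ := fun k =>
    aeval (fun j => aff (a k j) (b k j)) (permPoly m) with hP'
  set g' : ℕ → MvPolynomial (Option σ) ℂ := fun k =>
    aeval (fun j => aff (a k j) (b k j)) g with hg'def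
  have hdP : ∀ k, (P' k).totalDegree ≤ (permPoly m).totalDegree := fun k =>
    L5helper67.DC.totalDegree_aeval_le _ (hθ k) _
  have hdg : ∀ k, (g' k).totalDegree ≤ g.totalDegree := fun k =>
    L5helper67.DC.totalDegree_aeval_le _ (hθ k) _
  -- the limit of the permanents
  have hG : CT (fun k => C (K k)⁻¹ * P' k) (gr h) := by
    intro d
    have h2 : Tendsto (fun k => coeff d (C (K k)⁻¹ * P' k) - coeff d (Gk k)) atTop (nhds 0) := by
      refine squeeze_zero_norm (fun k => ?_) tendsto_one_div_add_atTop_nhds_zero_nat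
      have h3 := hclose k d
      rw [coeff_C_mul] at h3 ⊢
      have h4 : (K k)⁻¹ * coeff d (P' k) - coeff d (Gk k) =
          (K k)⁻¹ * (coeff d (P' k) - K k * coeff d (Gk k)) := by
        rw [mul_sub, inv_mul_cancel_left₀ (hK k)]
      rw [h4, norm_mul, norm_inv]
      have h5 := norm_pos_iff.2 (hK k)
      rw [inv_mul_le_iff₀ h5]
      exact h3
    have h3 := h2.add (hlim d)
    rw [zero_add] at h3
    refine h3.congr fun k => ?_
    ring
  -- the limit of the multipliers
  obtain ⟨φ, r, g₀, hφ, hr, hg₀, hgl⟩ := L7 _ g' g.totalDegree hdg hg'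
  obtain ⟨c', S', hS'card, hS'⟩ := L6 _ h c S hS g₀ hg₀
  set D : ℕ := g.totalDegree + (permPoly m).totalDegree with hD
  have hd2 : ∀ k, ((C (r k) * g' (φ k)) * (C (K (φ k))⁻¹ * P' (φ k))).totalDegree ≤ D := by
    intro k
    refine (totalDegree_mul _ _).trans (add_le_add ?_ ?_)
    · refine (totalDegree_mul _ _).trans ?_
      rw [totalDegree_C, zero_add]
      exact hdg _
    · refine (totalDegree_mul _ _).trans ?_
      rw [totalDegree_C, zero_add]
      exact hdP _
  have hl2 : CT (fun k => (C (r k) * g' (φ k)) * (C (K (φ k))⁻¹ * P' (φ k))) (g₀ * gr h) :=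
    hgl.mul fun d => (hG d).comp hφ.tendsto_atTop
  have hl3 : CT (fun k => X none * rename some
      ((C (r k) * g' (φ k)) * (C (K (φ k))⁻¹ * P' (φ k)))) (X none * rename some (g₀ * gr h)) :=
    (CT.const _).mul (CT.renameSome D hd2 hl2)
  obtain ⟨k, S'', h4, h5⟩ := crit_persist _ _ (1 + D) (fun k => by
    refine (totalDegree_mul _ _).trans (add_le_add ?_ ?_)
    · rw [totalDegree_X]
    · exact (totalDegree_rename_le _ _).trans (hd2 k)) hl3 c' S' hS'
  have hK' : (r k)⁻¹ * K (φ k) ≠ 0 := mul_ne_zero (inv_ne_zero (hr k)) (hK _)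
  have h6 := crit_smul _ _ hK' _ _ h5
  refine ⟨parA (a (φ k)), parB (b (φ k)), fun i => ((r k)⁻¹ * K (φ k)) * c' i, S'',
    h4.trans hS'card, ?_⟩
  have h7 : C ((r k)⁻¹ * K (φ k)) * (X none * rename some
      ((C (r k) * g' (φ k)) * (C (K (φ k))⁻¹ * P' (φ k)))) =
      (aeval (fun j => aff (parA (a (φ k)) j) (parB (b (φ k)) j))
        (X none * rename some (g * permPoly m)) : MvPolynomial (Option (Option σ)) ℂ) := by
    rw [aeval_par, map_mul (aeval _) g]
    change _ = X none * rename some (g' (φ k) * P' (φ k))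
    have h9 : (rename some ((C (r k) * g' (φ k)) * (C (K (φ k))⁻¹ * P' (φ k))) :
        MvPolynomial (Option (Option σ)) ℂ) = (C (r k) * rename some (g' (φ k))) *
          (C (K (φ k))⁻¹ * rename some (P' (φ k))) := by
      simp only [map_mul, rename_C]
    have h10 : (rename some (g' (φ k) * P' (φ k)) : MvPolynomial (Option (Option σ)) ℂ) =
        rename some (g' (φ k)) * rename some (P' (φ k)) := map_mul _ _ _
    rw [h9, h10]
    have h8 : (C ((r k)⁻¹ * K (φ k)) : MvPolynomial (Option (Option σ)) ℂ) *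
        (C (r k) * C (K (φ k))⁻¹) = 1 := by
      rw [← C_mul, ← C_mul, ← C_1]
      congr 1
      field_simp [hr k, hK (φ k)]
    linear_combination (X none * (rename some (g' (φ k)) * rename some (P' (φ k)))) * h8
  rw [← h7]
  exact h6

end Pool.Agent.L5helper59.ZT
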